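import Pool.Agent.Helper58.CP.Stmts

/-!
# Block D of QR: rows ORB, EXA, EXD, BIPL
-/

namespace QD87

noncomputable section

open Finset Classical CP

variable {D V F : Type} [Fintype D] [Fintype V] [Fintype F]

theorem vt_face (m : LM D V F) (d : D) : m.vt (m.face d) = m.vt (m.opp d) := m.vt_rot (m.opp d)

theorem conn_V (m : LM D V F) (S : Set V) (v : V) (hv : v ∈ S)
    (h : ∀ d, m.vt d ∈ S → m.vt (m.opp d) ∈ S) : S = Set.univ := by
  obtain ⟨d0, rfl⟩ := m.vt_surj v
  have h1 := m.conn {d | m.vt d ∈ S} ⟨d0, hv⟩ (fun d hd => by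
    simp only [Set.mem_ofPred_eq] at hd ⊢
    rwa [m.vt_rot]) (fun d hd => h d hd)
  refine Set.eq_univ_of_forall fun w => ?_
  obtain ⟨d, rfl⟩ := m.vt_surj w
  have : d ∈ {d | m.vt d ∈ S} := h1 ▸ Set.mem_univ d
  exact this

theorem sum_face (m : LM D V F) {A : Type} [AddCommGroup A] (g : V → A) (φ : F) :
    ∑ d with m.fc d = φ, (g (m.vt (m.opp d)) - g (m.vt d)) = 0 := by
  rw [Finset.sum_sub_distrib, sub_eq_zero]
  have h1 : ∑ d with m.fc d = φ, g (m.vt (m.opp d)) = ∑ d with m.fc d = φ, g (m.vt (m.face d)) :=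
    Finset.sum_congr rfl fun d _ => by rw [vt_face]
  rw [h1]
  refine Finset.sum_bij (fun d _ => m.face d) (fun d hd => ?_) (fun a _ b _ h => ?_)
    (fun b hb => ?_) (fun d _ => rfl)
  · rw [Finset.mem_filter] at hd ⊢
    exact ⟨Finset.mem_univ _, (m.fc_face d).trans hd.2⟩
  · exact m.face.injective h
  · rw [Finset.mem_filter] at hb
    refine ⟨m.face.symm b, ?_, by simp⟩
    rw [Finset.mem_filter]
    refine ⟨Finset.mem_univ _, ?_⟩
    have := m.fc_face (m.face.symm b)
    have e : m.rot (m.opp (m.face.symm b)) = b := m.face.apply_symm_apply b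
    rw [e] at this
    exact this.symm.trans hb.2

theorem st_EXA (hT : ST_TREE) (hC : ST_COT) : ST_EXA := by
  intro D V F _ _ _ m A _ f o hf hs
  obtain ⟨T, -, hT1, hT2, hE, hK⟩ := hT D V m.opp m.vt Finset.univ (m.vt o) m.opp_opp m.opp_ne
    (fun d _ => Finset.mem_univ _) (fun S hS h => conn_V m S _ hS
      fun d hd => h d (Finset.mem_univ d) hd)
  obtain ⟨g, hg⟩ := hE A f (fun d _ => hf d)
  have hcot := hC D V F m.rot m.opp m.vt m.fc T (m.vt o) m.opp_opp m.vt_rot m.fc_face m.fc_surj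
    hT1 m.conn (fun h h1 h2 h3 => hK (ZMod 2) h h1 h2 h3)
  have hTc : ∀ d ∈ Tᶜ, m.opp d ∈ Tᶜ := by
    intro d hd
    rw [Finset.mem_compl] at hd ⊢
    intro h
    apply hd
    have := hT1 _ h
    rwa [m.opp_opp] at this
  obtain ⟨T2, hsub, -, hcard, -, hK2⟩ := hT D F m.opp m.fc Tᶜ (m.fc o) m.opp_opp m.opp_ne hTc
    (fun S hS h => hcot S ⟨_, hS⟩ fun d hd hdS => h d (Finset.mem_compl.2 hd) hdS)
  have hcc : Tᶜ.card + T.card = Fintype.card D := by
    rw [Finset.card_compl]
    exact Nat.sub_add_cancel (Finset.card_le_univ T)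
  have hEu := m.euler
  have heq : T2 = Tᶜ := Finset.eq_of_subset_of_card_le hsub (by omega)
  have h0 : ∀ d, f d - (g (m.vt (m.opp d)) - g (m.vt d)) = 0 := by
    refine hK2 A (fun d => f d - (g (m.vt (m.opp d)) - g (m.vt d))) (fun d => ?_)
      (fun d hd => ?_) (fun φ hφ => ?_)
    · simp only [m.opp_opp, hf]
      abel
    · rw [heq, Finset.mem_compl, not_not] at hd
      simp only [← hg d hd, sub_self]
    · rw [Finset.sum_sub_distrib, hs φ hφ, sum_face m g φ, sub_zero]
  exact ⟨g, fun d => sub_eq_zero.1 (h0 d)⟩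

/-- the dual map -/
def dual (m : LM D V F) : LM D F V where
  rot := m.face
  opp := m.opp
  opp_opp := m.opp_opp
  opp_ne := m.opp_ne
  vt := m.fc
  fc := m.vt
  vt_rot := m.fc_face
  fc_face := fun d => by
    have : m.face (m.opp d) = m.rot d := by
      change m.rot (m.opp (m.opp d)) = m.rot d
      rw [m.opp_opp]
    rw [this, m.vt_rot]
  vt_surj := m.fc_surj
  fc_surj := m.vt_surj
  ne := m.ne
  conn := fun S hS h1 h2 => m.conn S hS (fun d hd => by
    have h3 := h1 _ (h2 d hd)
    have : m.face (m.opp d) = m.rot d := by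
      change m.rot (m.opp (m.opp d)) = m.rot d
      rw [m.opp_opp]
    rwa [this] at h3) h2
  euler := by
    rw [add_comm (Fintype.card F)]
    exact m.euler

theorem st_EXD (hX : ST_EXA) : ST_EXD := by
  intro D V F _ _ _ m A _ f v0 hf hs
  obtain ⟨o, ho⟩ := m.vt_surj v0
  refine hX D F V (dual m) A f o hf fun v hv => ?_
  refine hs v ?_
  rw [← ho]
  exact hv

theorem st_BIPL (hX : ST_EXA) : ST_BIPL := by
  intro D V F _ _ _ m o hs
  obtain ⟨g, hg⟩ := hX D V F m (ZMod 2) (fun _ => 1) o (fun d => by decide) (fun φ hφ => by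
    have h := hs φ hφ
    rw [Finset.sum_const, nsmul_eq_mul, mul_one]
    exact (ZMod.natCast_eq_zero_iff_even).2 h)
  refine ⟨fun v => decide (g v = 0), fun d h => ?_⟩
  have h1 := hg d
  have key : ∀ a b : ZMod 2, (decide (a = 0) = decide (b = 0)) → (1 : ZMod 2) = a - b → False := by
    intro a b hab
    have h2 : (a = 0) ↔ (b = 0) := by simpa using hab
    revert h2
    revert a b
    decide
  exact key _ _ h h1

omit [Fintype D] in
theorem orbit_const (σ : Equiv.Perm D) {X : Type} (g : D → X) (h : ∀ d, g (σ d) = g d) (i : ℤ) :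
    ∀ d, g ((σ ^ i) d) = g d := by
  have h' : ∀ d, g (σ⁻¹ d) = g d := fun d => by
    have := h (σ⁻¹ d)
    rw [show σ (σ⁻¹ d) = d from σ.apply_symm_apply d] at this
    exact this.symm
  induction i using Int.induction_on with
  | zero => intro d; simp
  | succ i ih => intro d; rw [zpow_add_one, Equiv.Perm.mul_apply, ih, h]
  | pred i ih => intro d; rw [zpow_sub_one, Equiv.Perm.mul_apply, ih, h']

theorem st_ORB (hG : ST_GEN) : ST_ORB := by
  intro D V F _ _ _ m
  let V0 := Quotient (Equiv.Perm.SameCycle.setoid m.rot)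
  let F0 := Quotient (Equiv.Perm.SameCycle.setoid m.face)
  let _ : Fintype V0 := Fintype.ofFinite V0
  let _ : Fintype F0 := Fintype.ofFinite F0
  let v0 : D → V0 := fun d => Quotient.mk _ d
  let f0 : D → F0 := fun d => Quotient.mk _ d
  have hg := hG D V0 F0 m.rot m.opp v0 f0 m.ne m.opp_opp m.opp_ne
    (fun d => Quotient.sound (Equiv.Perm.SameCycle.symm
      ((Equiv.Perm.sameCycle_apply_right).2 (Equiv.Perm.SameCycle.refl _ _))))
    (fun d => Quotient.sound (Equiv.Perm.SameCycle.symm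
      ((Equiv.Perm.sameCycle_apply_right (f := m.face)).2 (Equiv.Perm.SameCycle.refl _ _))))
    Quotient.mk_surjective Quotient.mk_surjective m.conn
  let pV : V0 → V := Quotient.lift m.vt (fun a b hab => by
    obtain ⟨i, hi⟩ := hab
    rw [← hi, orbit_const m.rot m.vt m.vt_rot i])
  let pF : F0 → F := Quotient.lift m.fc (fun a b hab => by
    obtain ⟨i, hi⟩ := hab
    rw [← hi, orbit_const m.face m.fc m.fc_face i])
  have sV : Function.Surjective pV := fun v => by
    obtain ⟨d, hd⟩ := m.vt_surj v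
    exact ⟨v0 d, hd⟩
  have sF : Function.Surjective pF := fun v => by
    obtain ⟨d, hd⟩ := m.fc_surj v
    exact ⟨f0 d, hd⟩
  have c1 := Fintype.card_le_of_surjective pV sV
  have c2 := Fintype.card_le_of_surjective pF sF
  have hEu := m.euler
  have e1 : Fintype.card V0 = Fintype.card V := by omega
  have e2 : Fintype.card F0 = Fintype.card F := by omega
  have b1 := ((Fintype.bijective_iff_surjective_and_card pV).2 ⟨sV, e1⟩).1
  have b2 := ((Fintype.bijective_iff_surjective_and_card pF).2 ⟨sF, e2⟩).1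
  refine ⟨fun d d' h => ?_, fun d d' h => ?_⟩
  · exact Quotient.exact (b1 (a₁ := v0 d) (a₂ := v0 d') h)
  · exact Quotient.exact (b2 (a₁ := f0 d) (a₂ := f0 d') h)

end

end QD87
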