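import Mathlib

/-!
# Area of words, relative to an arbitrary (possibly infinite) set of relators
-/

namespace Helper87.QD

open FreeGroup

/-- `w` is a product of at most `n` conjugates of relators and inverses of relators. -/
def AreaLe {α : Type*} (R : Set (FreeGroup α)) (n : ℕ) (w : FreeGroup α) : Prop :=
  ∃ l : List (FreeGroup α × FreeGroup α), l.length ≤ n ∧ (∀ p ∈ l, p.2 ∈ R ∨ p.2⁻¹ ∈ R) ∧
    w = (l.map (fun p => p.1 * p.2 * p.1⁻¹)).prod

variable {α β : Type*} {R : Set (FreeGroup α)} {m n : ℕ} {u v w : FreeGroup α}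

theorem AreaLe.one (n : ℕ) : AreaLe R n 1 := ⟨[], by simp, by simp, by simp⟩

theorem AreaLe.mono (h : AreaLe R m w) (hmn : m ≤ n) : AreaLe R n w := by
  obtain ⟨l, h1, h2, h3⟩ := h
  exact ⟨l, h1.trans hmn, h2, h3⟩

theorem AreaLe.mono_set {R' : Set (FreeGroup α)} (h : AreaLe R n w) (hR : R ⊆ R') :
    AreaLe R' n w := by
  obtain ⟨l, h1, h2, h3⟩ := h
  exact ⟨l, h1, fun p hp => (h2 p hp).imp (fun h => hR h) (fun h => hR h), h3⟩

theorem AreaLe.mul (hu : AreaLe R m u) (hv : AreaLe R n v) : AreaLe R (m + n) (u * v) := by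
  obtain ⟨l, h1, h2, h3⟩ := hu
  obtain ⟨l', h1', h2', h3'⟩ := hv
  refine ⟨l ++ l', by rw [List.length_append]; omega, ?_, ?_⟩
  · intro p hp
    rcases List.mem_append.mp hp with hp | hp
    · exact h2 p hp
    · exact h2' p hp
  · rw [List.map_append, List.prod_append, ← h3, ← h3']

theorem AreaLe.conj (g : FreeGroup α) (h : AreaLe R n w) : AreaLe R n (g * w * g⁻¹) := by
  obtain ⟨l, h1, h2, h3⟩ := h
  refine ⟨l.map (fun p => (g * p.1, p.2)), by simpa using h1, ?_, ?_⟩
  · intro p hp
    obtain ⟨q, hq, rfl⟩ := List.mem_map.mp hp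
    exact h2 q hq
  · rw [h3, List.map_map]
    clear h1 h2 h3
    induction l with
    | nil => simp
    | cons p l ih =>
      simp only [List.map_cons, List.prod_cons, Function.comp] at ih ⊢
      rw [← ih]; group

theorem AreaLe.inv (h : AreaLe R n w) : AreaLe R n w⁻¹ := by
  obtain ⟨l, h1, h2, h3⟩ := h
  refine ⟨(l.map (fun p => (p.1, p.2⁻¹))).reverse, by simpa using h1, ?_, ?_⟩
  · intro p hp
    obtain ⟨q, hq, rfl⟩ := List.mem_map.mp (List.mem_reverse.mp hp)
    rcases h2 q hq with h | h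
    · exact Or.inr (by simpa using h)
    · exact Or.inl h
  · rw [h3]
    clear h1 h2 h3
    induction l with
    | nil => simp
    | cons p l ih =>
      simp only [List.map_cons, List.prod_cons, List.reverse_cons, List.map_append, List.prod_append,
        List.map_nil, List.prod_nil, mul_one, mul_inv_rev] at ih ⊢
      rw [ih]; group

theorem AreaLe.of_mem (h : w ∈ R) : AreaLe R 1 w :=
  ⟨[(1, w)], by simp, by simpa using Or.inl h, by simp⟩

/-- Replacing a subword. -/
theorem AreaLe.subst (h : AreaLe R m (u * v⁻¹)) (a b : FreeGroup α) (h' : AreaLe R n (a * v * b)) :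
    AreaLe R (m + n) (a * u * b) := by
  have h1 := (h.conj a).mul h'
  have e : a * (u * v⁻¹) * a⁻¹ * (a * v * b) = a * u * b := by group
  rwa [e] at h1

/-- Transitivity of equality up to area. -/
theorem AreaLe.trans (h : AreaLe R m (u * v⁻¹)) (h' : AreaLe R n (v * w⁻¹)) :
    AreaLe R (m + n) (u * w⁻¹) := by
  have h1 := h.mul h'
  have e : u * v⁻¹ * (v * w⁻¹) = u * w⁻¹ := by group
  rwa [e] at h1

theorem AreaLe.symm (h : AreaLe R m (u * v⁻¹)) : AreaLe R m (v * u⁻¹) := by
  have h1 := h.inv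
  have e : (u * v⁻¹)⁻¹ = v * u⁻¹ := by group
  rwa [e] at h1

/-- `u ~ u'`, `v ~ v'` imply `u v ~ u' v'`. -/
theorem AreaLe.mul_congr {u' v' : FreeGroup α} (h : AreaLe R m (u * u'⁻¹))
    (h' : AreaLe R n (v * v'⁻¹)) : AreaLe R (m + n) (u * v * (u' * v')⁻¹) := by
  have h1 := (h'.conj u).mul h
  have e : u * (v * v'⁻¹) * u⁻¹ * (u * u'⁻¹) = u * v * (u' * v')⁻¹ := by group
  rw [e, add_comm] at h1
  exact h1

theorem AreaLe.list_prod {ι : Type*} (l : List ι) (f g : ι → FreeGroup α) (c : ℕ)
    (h : ∀ i ∈ l, AreaLe R c (f i * (g i)⁻¹)) :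
    AreaLe R (c * l.length) ((l.map f).prod * ((l.map g).prod)⁻¹) := by
  induction l with
  | nil => simpa using AreaLe.one 0
  | cons a l ih =>
    have h1 := (h a (by simp)).mul_congr (ih (fun i hi => h i (by simp [hi])))
    simp only [List.map_cons, List.prod_cons, List.length_cons]
    refine h1.mono ?_
    rw [Nat.mul_succ, add_comm]

/-- Area under homomorphisms. -/
theorem AreaLe.map {S : Set (FreeGroup β)} (f : FreeGroup α →* FreeGroup β) (c : ℕ)
    (hf : ∀ r ∈ R, AreaLe S c (f r)) (h : AreaLe R n w) : AreaLe S (c * n) (f w) := by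
  obtain ⟨l, h1, h2, h3⟩ := h
  subst h3
  refine AreaLe.mono (m := c * l.length) ?_ (Nat.mul_le_mul_left c h1)
  clear h1
  induction l with
  | nil => simpa using AreaLe.one 0
  | cons p l ih =>
    have hp : AreaLe S c (f p.2) := by
      rcases h2 p (by simp) with h | h
      · exact hf _ h
      · have := (hf _ h).inv
        simpa using this
    have h4 := (hp.conj (f p.1)).mul (ih (fun q hq => h2 q (by simp [hq])))
    rw [List.map_cons, List.prod_cons, map_mul f, map_mul f, map_mul f, map_inv f, List.length_cons]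
    refine h4.mono ?_
    rw [Nat.mul_succ, add_comm]

/-- Words of area `≤ n` lie in the normal closure. -/
theorem AreaLe.mem (h : AreaLe R n w) : w ∈ Subgroup.normalClosure R := by
  obtain ⟨l, -, h2, rfl⟩ := h
  refine Subgroup.list_prod_mem _ ?_
  intro x hx
  obtain ⟨p, hp, rfl⟩ := List.mem_map.mp hx
  refine Subgroup.normalClosure_normal.conj_mem _ ?_ _
  rcases h2 p hp with h | h
  · exact Subgroup.subset_normalClosure h
  · exact (Subgroup.inv_mem_iff _).mp (Subgroup.subset_normalClosure h)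

/-- If the relators are trivial under `f` and so is `w`. -/
theorem AreaLe.eval {G : Type*} [Group G] (f : FreeGroup α →* G) (hf : ∀ r ∈ R, f r = 1)
    (h : AreaLe R n w) : f w = 1 := by
  have h1 : Subgroup.normalClosure R ≤ f.ker := Subgroup.normalClosure_le_normal (fun r hr => hf r hr)
  exact h1 h.mem

end Helper87.QD
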