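import Mathlib
import Pool.Agent.Helper87.QD.Area

/-!
# Crossed homomorphisms from a free group, and the lattice lemma
-/

namespace Helper87.QD


section crossed

variable {S G A : Type*} [Group G] [Group A]

/-- `G` acts on functions `G → A` by translating the argument on the right. -/
def shift (G A : Type*) [Group G] [Group A] : G →* MulAut (G → A) where
  toFun g :=
    { toFun := fun n x => n (x * g)
      invFun := fun n x => n (x * g⁻¹)
      left_inv := fun n => by funext x; simp
      right_inv := fun n => by funext x; simp
      map_mul' := fun m n => by funext x; simp }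
  map_one' := by ext n x; simp
  map_mul' g g' := by
    ext n x
    change n (x * (g * g')) = n (x * g * g')
    rw [mul_assoc]

/-- The crossed homomorphism as a homomorphism to the semidirect product. -/
def crossHom (e : S → G) (t : G → S → A) : FreeGroup S →* (G → A) ⋊[shift G A] G :=
  FreeGroup.lift (fun s => ⟨fun g => t g s, e s⟩)

/-- The crossed homomorphism. -/
def cross (e : S → G) (t : G → S → A) (g : G) (w : FreeGroup S) : A := (crossHom e t w).left g

variable (e : S → G) (t : G → S → A)

theorem crossHom_right (w : FreeGroup S) : (crossHom e t w).right = FreeGroup.lift e w := by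
  have h : (SemidirectProduct.rightHom.comp (crossHom e t)) = FreeGroup.lift e := by
    ext s; simp [crossHom]
  exact DFunLike.congr_fun h w

theorem cross_of (g : G) (s : S) : cross e t g (FreeGroup.of s) = t g s := by
  simp [cross, crossHom]

theorem cross_one (g : G) : cross e t g 1 = 1 := by
  simp [cross]

theorem cross_mul (g : G) (w w' : FreeGroup S) :
    cross e t g (w * w') = cross e t g w * cross e t (g * FreeGroup.lift e w) w' := by
  unfold cross
  rw [map_mul, SemidirectProduct.mul_left, Pi.mul_apply, ← crossHom_right e t w]
  rfl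

theorem cross_inv (g : G) (w : FreeGroup S) :
    cross e t g w⁻¹ = (cross e t (g * (FreeGroup.lift e w)⁻¹) w)⁻¹ := by
  have h := cross_mul e t (g * (FreeGroup.lift e w)⁻¹) w w⁻¹
  rw [mul_inv_cancel, cross_one, inv_mul_cancel_right] at h
  exact (inv_eq_of_mul_eq_one_right h.symm).symm

theorem cross_conj (g : G) (u r : FreeGroup S) (hr : FreeGroup.lift e r = 1) :
    cross e t g (u * r * u⁻¹) =
      cross e t g u * cross e t (g * FreeGroup.lift e u) r * (cross e t g u)⁻¹ := by
  rw [cross_mul, cross_mul, cross_inv, map_mul, hr, mul_one, mul_inv_cancel_right]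

/-- Equivariance. -/
theorem cross_equivariant (h : G) (ht : ∀ g s, t (h * g) s = t g s) (w : FreeGroup S) (g : G) :
    cross e t (h * g) w = cross e t g w := by
  induction w using FreeGroup.induction_on generalizing g with
  | C1 => rw [cross_one, cross_one]
  | of s =>
    have := ht g s
    change cross e t (h * g) (FreeGroup.of s) = cross e t g (FreeGroup.of s)
    rw [cross_of, cross_of, this]
  | inv_of s ih =>
    rw [cross_inv, cross_inv, mul_assoc, ih]
  | mul x y ihx ihy => rw [cross_mul, cross_mul, ihx, mul_assoc, ihy]

/-- Evaluation. -/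
theorem cross_eval {B : Type*} [Group B] (f : A →* B) (γ : G → B)
    (ht : ∀ g s, f (t g s) = (γ g)⁻¹ * γ (g * e s)) (w : FreeGroup S) (g : G) :
    f (cross e t g w) = (γ g)⁻¹ * γ (g * FreeGroup.lift e w) := by
  induction w using FreeGroup.induction_on generalizing g with
  | C1 => rw [cross_one, map_one, map_one, mul_one, inv_mul_cancel]
  | of s =>
    change f (cross e t g (FreeGroup.of s)) = (γ g)⁻¹ * γ (g * FreeGroup.lift e (FreeGroup.of s))
    rw [cross_of, ht, FreeGroup.lift_apply_of]
  | inv_of s ih =>
    rw [cross_inv, map_inv, ih, map_inv, mul_inv_rev, inv_inv, inv_mul_cancel_right]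
  | mul x y ihx ihy =>
    rw [cross_mul, map_mul, ihx, ihy, map_mul]
    group

end crossed

section norm

variable {S G : Type*} [Group G] {k : ℕ} [DecidableEq S]

theorem cross_norm_le (e : S → G) (t : G → S → Fin k) (w : FreeGroup S) (g : G) :
    (cross e (fun g s => FreeGroup.of (t g s)) g w).norm ≤ w.norm := by
  have key : ∀ (L : List (S × Bool)) (g : G),
      (cross e (fun g s => FreeGroup.of (t g s)) g (FreeGroup.mk L)).norm ≤ L.length := by
    intro L
    induction L with
    | nil =>
      intro g
      rw [← FreeGroup.one_eq_mk, cross_one]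
      simp
    | cons p L ih =>
      intro g
      obtain ⟨a, b⟩ := p
      have h1 : (FreeGroup.mk ((a, b) :: L) : FreeGroup S) = FreeGroup.mk [(a, b)] * FreeGroup.mk L := by
        rw [FreeGroup.mul_mk]; rfl
      rw [h1, cross_mul]
      refine (FreeGroup.norm_mul_le _ _).trans ?_
      have h2 := ih (g * FreeGroup.lift e (FreeGroup.mk [(a, b)]))
      have h3 : (cross e (fun g s => FreeGroup.of (t g s)) g (FreeGroup.mk [(a, b)])).norm ≤ 1 := by
        cases b with
        | true =>
          change (cross e (fun g s => FreeGroup.of (t g s)) g (FreeGroup.of a)).norm ≤ 1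
          rw [cross_of, FreeGroup.norm_of]
        | false =>
          have h4 : (FreeGroup.mk [(a, false)] : FreeGroup S) = (FreeGroup.of a)⁻¹ := rfl
          rw [h4, cross_inv, FreeGroup.norm_inv_eq, cross_of, FreeGroup.norm_of]
      rw [List.length_cons]
      omega
  have h := key w.toWord g
  rw [FreeGroup.mk_toWord] at h
  exact h

theorem lift_norm_le {α β : Type*} [DecidableEq α] [DecidableEq β] (f : α → FreeGroup β) (M : ℕ)
    (hf : ∀ a, (f a).norm ≤ M) (w : FreeGroup α) : (FreeGroup.lift f w).norm ≤ M * w.norm := by
  have key : ∀ L : List (α × Bool), (FreeGroup.lift f (FreeGroup.mk L)).norm ≤ M * L.length := by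
    intro L
    induction L with
    | nil => rw [← FreeGroup.one_eq_mk, map_one]; simp
    | cons p L ih =>
      obtain ⟨a, b⟩ := p
      have h1 : (FreeGroup.mk ((a, b) :: L) : FreeGroup α) = FreeGroup.mk [(a, b)] * FreeGroup.mk L := by
        rw [FreeGroup.mul_mk]; rfl
      rw [h1, map_mul]
      refine (FreeGroup.norm_mul_le _ _).trans ?_
      have h3 : (FreeGroup.lift f (FreeGroup.mk [(a, b)])).norm ≤ M := by
        cases b with
        | true =>
          change (FreeGroup.lift f (FreeGroup.of a)).norm ≤ M
          rw [FreeGroup.lift_apply_of]; exact hf a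
        | false =>
          have h4 : (FreeGroup.mk [(a, false)] : FreeGroup α) = (FreeGroup.of a)⁻¹ := rfl
          rw [h4, map_inv, FreeGroup.norm_inv_eq, FreeGroup.lift_apply_of]; exact hf a
      rw [List.length_cons, Nat.mul_succ]
      omega
  have h := key w.toWord
  rw [FreeGroup.mk_toWord] at h
  exact h

end norm

end Helper87.QD
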