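import Mathlib
import Pool.Agent.Helper87.QD.Cross

/-!
# A lattice inherits a quadratic Dehn function
-/

namespace Helper87.QD

/-- The finite presentation `⟨Fin k ∣ rels⟩` has area at most `C n ^ 2 + C`. -/
def Quad (k : ℕ) (rels : Finset (FreeGroup (Fin k))) (C : ℕ) : Prop :=
  ∀ w : FreeGroup (Fin k),
    w ∈ Subgroup.normalClosure (rels : Set (FreeGroup (Fin k))) →
    ∃ l : List (FreeGroup (Fin k) × FreeGroup (Fin k)),
      l.length ≤ C * (FreeGroup.norm w) ^ 2 + C ∧
      (∀ p ∈ l, p.2 ∈ rels ∨ p.2⁻¹ ∈ rels) ∧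
      w = (l.map (fun p => p.1 * p.2 * p.1⁻¹)).prod

theorem finite_norm_le (k n : ℕ) : {w : FreeGroup (Fin k) | w.norm ≤ n}.Finite := by
  have h := (List.finite_length_le (Fin k × Bool) n)
  refine Set.Finite.subset (h.preimage (f := FreeGroup.toWord) (FreeGroup.toWord_injective.injOn)) ?_
  intro w hw
  exact hw

/-- From an epimorphism `E : F_k → Γ` with area bound, to the form of the frozen statement. -/
theorem quad_of_area {k : ℕ} {Γ : Type*} [Group Γ] (E : FreeGroup (Fin k) →* Γ)
    (hE : Function.Surjective E) (K C : ℕ)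
    (H : ∀ w : FreeGroup (Fin k), E w = 1 →
      AreaLe {r | E r = 1 ∧ r.norm ≤ K} (C * w.norm ^ 2 + C) w) :
    ∃ (rels : Finset (FreeGroup (Fin k))), Quad k rels C ∧
      Nonempty (Γ ≃* PresentedGroup (rels : Set (FreeGroup (Fin k)))) := by
  have hf : {r : FreeGroup (Fin k) | E r = 1 ∧ r.norm ≤ K}.Finite :=
    (finite_norm_le k K).subset (fun r hr => hr.2)
  refine ⟨hf.toFinset, ?_, ?_⟩
  · intro w hw
    have h1 : E w = 1 := by
      have h2 : Subgroup.normalClosure ((hf.toFinset : Finset (FreeGroup (Fin k))) :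
          Set (FreeGroup (Fin k))) ≤ E.ker := by
        refine Subgroup.normalClosure_le_normal ?_
        intro r hr
        rw [Set.Finite.coe_toFinset] at hr
        exact hr.1
      exact h2 hw
    obtain ⟨l, h2, h3, h4⟩ := H w h1
    refine ⟨l, h2, ?_, h4⟩
    intro p hp
    refine (h3 p hp).imp ?_ ?_
    · intro h; exact hf.mem_toFinset.mpr h
    · intro h; exact hf.mem_toFinset.mpr h
  · have hk : Subgroup.normalClosure ((hf.toFinset : Finset (FreeGroup (Fin k))) :
          Set (FreeGroup (Fin k))) = E.ker := by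
      refine le_antisymm ?_ ?_
      · refine Subgroup.normalClosure_le_normal ?_
        intro r hr
        rw [Set.Finite.coe_toFinset] at hr
        exact hr.1
      · intro w hw
        have h := (H w hw).mem
        rwa [Set.Finite.coe_toFinset]
    refine ⟨?_⟩
    have e1 := QuotientGroup.quotientKerEquivOfSurjective E hE
    have e2 := QuotientGroup.quotientMulEquivOfEq hk
    exact (e2.trans e1).symm

/-- **The lattice lemma.** -/
theorem lattice {S G : Type*} [Group G] [DecidableEq S] (e : S → G)
    (he : Function.Surjective (FreeGroup.lift e)) (K C : ℕ)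
    (H1 : ∀ w : FreeGroup S, FreeGroup.lift e w = 1 →
      AreaLe {r | FreeGroup.lift e r = 1 ∧ r.norm ≤ K} (C * w.norm ^ 2 + C) w)
    {Γ : Type*} [Group Γ] (ι : Γ →* G) (γ : G → Γ) (hγ : ∀ h g, γ (ι h * g) = h * γ g)
    (h1 : γ 1 = 1)
    (hfin : (Set.range (fun p : G × S => (γ p.1)⁻¹ * γ (p.1 * e p.2))).Finite) :
    ∃ (k : ℕ) (rels : Finset (FreeGroup (Fin k))) (C : ℕ), Quad k rels C ∧
      Nonempty (Γ ≃* PresentedGroup (rels : Set (FreeGroup (Fin k)))) := by
  classical
  -- the letters
  have : Finite (Set.range (fun p : G × S => (γ p.1)⁻¹ * γ (p.1 * e p.2))) := hfin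
  obtain ⟨k, ⟨φ⟩⟩ := Finite.exists_equiv_fin (Set.range (fun p : G × S => (γ p.1)⁻¹ * γ (p.1 * e p.2)))
  let t : G → S → Fin k := fun g s => φ ⟨(γ g)⁻¹ * γ (g * e s), ⟨(g, s), rfl⟩⟩
  let τ : Fin k → Γ := fun i => (φ.symm i).1
  have hτ : ∀ g s, τ (t g s) = (γ g)⁻¹ * γ (g * e s) := by
    intro g s; simp [τ, t]
  have ht : ∀ (h : Γ) (g : G) (s : S), t (ι h * g) s = t g s := by
    intro h g s
    simp only [t]
    congr 1
    apply Subtype.ext
    simp only
    rw [hγ, mul_assoc, hγ]; group
  let E : FreeGroup (Fin k) →* Γ := FreeGroup.lift τ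
  let cr : G → FreeGroup S → FreeGroup (Fin k) := cross e (fun g s => FreeGroup.of (t g s))
  have hcr : ∀ g w, E (cr g w) = (γ g)⁻¹ * γ (g * FreeGroup.lift e w) := by
    intro g w
    refine cross_eval e _ E γ ?_ w g
    intro g s
    simp only [E]
    rw [FreeGroup.lift_apply_of, hτ]
  have hcri : ∀ (h : Γ) g w, cr (ι h * g) w = cr g w := by
    intro h g w
    refine cross_equivariant e _ (ι h) ?_ w g
    intro g s
    simp only [ht]
  -- the words for the letters
  choose W hW using fun i => he (ι (τ i))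
  obtain ⟨M, hM⟩ : ∃ M, ∀ i, (W i).norm ≤ M := by
    refine ⟨Finset.univ.sup (fun i => (W i).norm), fun i => ?_⟩
    exact Finset.le_sup (f := fun i => (W i).norm) (Finset.mem_univ i)
  have hιγ : ∀ h, γ (ι h) = h := by
    intro h; have := hγ h 1; rwa [mul_one, h1, mul_one] at this
  have hWv : ∀ v : FreeGroup (Fin k), FreeGroup.lift e (FreeGroup.lift W v) = ι (E v) := by
    intro v
    have : (FreeGroup.lift e).comp (FreeGroup.lift W) = ι.comp E := by
      ext i; simp [E, hW]
    exact DFunLike.congr_fun this v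
  -- `v ↦ cr 1 (W v)` is a homomorphism
  let θ : FreeGroup (Fin k) →* FreeGroup (Fin k) := FreeGroup.lift (fun i => cr 1 (W i))
  have hθ : ∀ v : FreeGroup (Fin k), cr 1 (FreeGroup.lift W v) = θ v := by
    let θ' : FreeGroup (Fin k) →* FreeGroup (Fin k) :=
      { toFun := fun v => cr 1 (FreeGroup.lift W v)
        map_one' := by simp only [cr]; rw [map_one, cross_one]
        map_mul' := by
          intro v v'
          have h2 : cr 1 (FreeGroup.lift W (v * v')) = cr 1 (FreeGroup.lift W v) *
              cr (1 * FreeGroup.lift e (FreeGroup.lift W v)) (FreeGroup.lift W v') := by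
            rw [map_mul]; exact cross_mul e _ 1 _ _
          rw [h2, one_mul, hWv]
          have h3 := hcri (E v) 1 (FreeGroup.lift W v')
          rw [mul_one] at h3
          rw [h3] }
    have : θ' = θ := by
      ext i
      simp [θ', θ]
    intro v
    exact DFunLike.congr_fun this v
  have hEs : Function.Surjective E := by
    intro h
    obtain ⟨w, hw⟩ := he (ι h)
    refine ⟨cr 1 w, ?_⟩
    rw [hcr, h1, one_mul, hw, hιγ, inv_one, one_mul]
  -- the area bound
  have key : ∀ v : FreeGroup (Fin k), E v = 1 →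
      AreaLe {r | E r = 1 ∧ r.norm ≤ max K (M + 1)} ((C * M ^ 2 + C + 1) * v.norm ^ 2 +
        (C * M ^ 2 + C + 1)) v := by
    intro v hv
    have a1 := H1 (FreeGroup.lift W v) (by rw [hWv, hv, map_one])
    -- transport of the relators
    have a2 : ∀ (n : ℕ) (w : FreeGroup S),
        AreaLe {r | FreeGroup.lift e r = 1 ∧ r.norm ≤ K} n w →
        AreaLe {r | E r = 1 ∧ r.norm ≤ max K (M + 1)} n (cr 1 w) := by
      intro n w hw
      obtain ⟨l, l1, l2, rfl⟩ := hw
      refine AreaLe.mono (m := l.length) ?_ l1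
      clear l1
      induction l with
      | nil =>
        have : cr 1 ((([] : List (FreeGroup S × FreeGroup S)).map
            (fun p => p.1 * p.2 * p.1⁻¹)).prod) = 1 := cross_one e _ 1
        rw [this]; exact AreaLe.one _
      | cons p l ih =>
        have ih' := ih (fun q hq => l2 q (by simp [hq]))
        have hp : FreeGroup.lift e p.2 = 1 ∧ p.2.norm ≤ K := by
          rcases l2 p (by simp) with h | h
          · exact h
          · obtain ⟨h3, h4⟩ := h
            rw [map_inv, inv_eq_one] at h3
            rw [FreeGroup.norm_inv_eq] at h4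
            exact ⟨h3, h4⟩
        have hc : cr 1 (p.1 * p.2 * p.1⁻¹) =
            cr 1 p.1 * cr (1 * FreeGroup.lift e p.1) p.2 * (cr 1 p.1)⁻¹ :=
          cross_conj e _ 1 p.1 p.2 hp.1
        have hm : cr 1 (((p :: l).map (fun p => p.1 * p.2 * p.1⁻¹)).prod) =
            cr 1 (p.1 * p.2 * p.1⁻¹) * cr 1 ((l.map (fun p => p.1 * p.2 * p.1⁻¹)).prod) := by
          rw [List.map_cons, List.prod_cons]
          have := cross_mul e (fun g s => FreeGroup.of (t g s)) 1 (p.1 * p.2 * p.1⁻¹)
            ((l.map (fun p => p.1 * p.2 * p.1⁻¹)).prod)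
          rw [map_mul, map_mul, hp.1, mul_one, map_inv, mul_inv_cancel, mul_one] at this
          exact this
        rw [hm, hc, List.length_cons, add_comm l.length 1]
        refine (AreaLe.conj _ (AreaLe.of_mem ?_)).mul ih'
        refine ⟨?_, ?_⟩
        · rw [hcr, hp.1, mul_one, inv_mul_cancel]
        · refine (cross_norm_le e t p.2 _).trans (hp.2.trans (le_max_left _ _))
    have a3 := a2 _ _ a1
    rw [hθ] at a3
    -- comparison of `v` and `θ v`
    have a4 : AreaLe {r | E r = 1 ∧ r.norm ≤ max K (M + 1)} v.norm (v * (θ v)⁻¹) := by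
      have key2 : ∀ L : List (Fin k × Bool),
          AreaLe {r | E r = 1 ∧ r.norm ≤ max K (M + 1)} L.length
            (FreeGroup.mk L * (θ (FreeGroup.mk L))⁻¹) := by
        have hgen : ∀ i, AreaLe {r | E r = 1 ∧ r.norm ≤ max K (M + 1)} 1
            (FreeGroup.of i * (θ (FreeGroup.of i))⁻¹) := by
          intro i
          refine AreaLe.of_mem ⟨?_, ?_⟩
          · have hθi : θ (FreeGroup.of i) = cr 1 (W i) := FreeGroup.lift_apply_of
            have hEi : E (FreeGroup.of i) = τ i := FreeGroup.lift_apply_of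
            rw [map_mul, map_inv, hθi, hEi, hcr, h1, hW, one_mul, hιγ, inv_one, one_mul,
              mul_inv_cancel]
          · have hθi : θ (FreeGroup.of i) = cr 1 (W i) := FreeGroup.lift_apply_of
            rw [hθi]
            refine (FreeGroup.norm_mul_le _ _).trans ?_
            rw [FreeGroup.norm_of, FreeGroup.norm_inv_eq, add_comm]
            refine le_trans ?_ (le_max_right _ _)
            have := cross_norm_le e t (W i) 1
            have h5 := hM i
            simp only [cr]
            omega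
        intro L
        induction L with
        | nil =>
          rw [← FreeGroup.one_eq_mk, map_one, inv_one, mul_one]; exact AreaLe.one _
        | cons p L ih =>
          obtain ⟨a, b⟩ := p
          have h1 : (FreeGroup.mk ((a, b) :: L) : FreeGroup (Fin k)) =
              FreeGroup.mk [(a, b)] * FreeGroup.mk L := by
            rw [FreeGroup.mul_mk]; rfl
          rw [h1, map_mul, List.length_cons, add_comm L.length 1]
          refine AreaLe.mul_congr ?_ ih
          cases b with
          | true => exact hgen a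
          | false =>
            have h4 : (FreeGroup.mk [(a, false)] : FreeGroup (Fin k)) = (FreeGroup.of a)⁻¹ := rfl
            rw [h4, map_inv, inv_inv]
            have h5 := ((hgen a).conj (FreeGroup.of a)⁻¹).inv
            have h6 : ((FreeGroup.of a)⁻¹ * (FreeGroup.of a * (θ (FreeGroup.of a))⁻¹) *
              ((FreeGroup.of a)⁻¹)⁻¹)⁻¹ = (FreeGroup.of a)⁻¹ * θ (FreeGroup.of a) := by group
            rwa [h6] at h5
      have := key2 v.toWord
      rw [FreeGroup.mk_toWord] at this
      exact this
    have a5 := a4.mul a3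
    rw [inv_mul_cancel_right] at a5
    refine a5.mono ?_
    have h5 := lift_norm_le W M hM v
    have h6 : (FreeGroup.lift W v).norm ^ 2 ≤ M ^ 2 * v.norm ^ 2 := by
      rw [← mul_pow]; exact Nat.pow_le_pow_left h5 2
    have h7 : C * (FreeGroup.lift W v).norm ^ 2 ≤ C * M ^ 2 * v.norm ^ 2 := by
      rw [mul_assoc]; exact Nat.mul_le_mul_left C h6
    nlinarith [Nat.zero_le (C * v.norm ^ 2), Nat.zero_le (C * M ^ 2), Nat.le_self_pow (n := 2) (by norm_num) v.norm]
  obtain ⟨rels, h2, h3⟩ := quad_of_area E hEs _ _ key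
  exact ⟨k, rels, _, h2, h3⟩

end Helper87.QD
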