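import Mathlib
import Pool.Agent.Helper87.QD.Lattice

/-!
# The lattice lemma in the form `G = Γ O`
-/

namespace Helper87.QD

/-- **The lattice lemma**, form `G = Γ O` with `Γ ∩ O e(S) O⁻¹` finite. -/
theorem cocompact {S G : Type*} [Group G] [DecidableEq S] (e : S → G)
    (he : Function.Surjective (FreeGroup.lift e)) (K C : ℕ)
    (H1 : ∀ w : FreeGroup S, FreeGroup.lift e w = 1 →
      AreaLe {r | FreeGroup.lift e r = 1 ∧ r.norm ≤ K} (C * w.norm ^ 2 + C) w)
    {Γ : Type*} [Group Γ] (ι : Γ →* G) (hι : Function.Injective ι) (O : Set G)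
    (hO1 : (1 : G) ∈ O) (hO : ∀ g : G, ∃ (h : Γ) (o : G), o ∈ O ∧ g = ι h * o)
    (hfin : {h : Γ | ∃ o ∈ O, ∃ s : S, ∃ o' ∈ O, ι h = o * e s * o'⁻¹}.Finite) :
    ∃ (k : ℕ) (rels : Finset (FreeGroup (Fin k))) (C : ℕ), Quad k rels C ∧
      Nonempty (Γ ≃* PresentedGroup (rels : Set (FreeGroup (Fin k)))) := by
  classical
  -- the relation `g ~ g'` iff `g ∈ Γ g'`
  let r : Setoid G :=
    { r := fun g g' => ∃ h : Γ, g = ι h * g'
      iseqv :=
        { refl := fun g => ⟨1, by simp⟩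
          symm := fun {g g'} ⟨h, hh⟩ => ⟨h⁻¹, by rw [hh, map_inv]; simp⟩
          trans := fun {a b c} ⟨h, hh⟩ ⟨h', hh'⟩ => ⟨h * h', by rw [hh, hh', map_mul, mul_assoc]⟩ } }
  -- representatives of the classes, in `O`
  have h2 : ∀ c : Quotient r, ∃ o : G, o ∈ O ∧ Quotient.mk r o = c ∧
      (c = Quotient.mk r 1 → o = 1) := by
    intro c
    by_cases hc : c = Quotient.mk r 1
    · exact ⟨1, hO1, hc.symm, fun _ => rfl⟩
    · obtain ⟨g, rfl⟩ := Quotient.exists_rep c
      obtain ⟨h, o, ho, hg⟩ := hO g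
      refine ⟨o, ho, ?_, fun h => absurd h hc⟩
      refine Quotient.sound ?_
      exact ⟨h⁻¹, by rw [hg, map_inv]; simp⟩
  choose o ho1 ho2 ho3 using h2
  have h3 : ∀ g : G, ∃ h : Γ, g = ι h * o (Quotient.mk r g) := by
    intro g
    have := Quotient.exact (ho2 (Quotient.mk r g)).symm
    exact this
  choose γ hγ using h3
  have hq : ∀ (h : Γ) (g : G), Quotient.mk r (ι h * g) = Quotient.mk r g := by
    intro h g
    exact Quotient.sound ⟨h, rfl⟩
  refine lattice e he K C H1 ι γ ?_ ?_ ?_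
  · intro h g
    apply hι
    have e1 := hγ (ι h * g)
    have e2 := hγ g
    rw [hq] at e1
    rw [map_mul]
    have e3 : ι (γ (ι h * g)) * o (Quotient.mk r g) = ι h * ι (γ g) * o (Quotient.mk r g) := by
      rw [← e1, mul_assoc, ← e2]
    exact mul_right_cancel e3
  · apply hι
    have e1 := hγ 1
    rw [ho3 _ rfl, mul_one] at e1
    rw [← e1, map_one]
  · refine hfin.subset ?_
    rintro _ ⟨⟨g, s⟩, rfl⟩
    refine ⟨o (Quotient.mk r g), ho1 _, s, o (Quotient.mk r (g * e s)), ho1 _, ?_⟩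
    have e1 := hγ g
    have e2 := hγ (g * e s)
    simp only
    rw [map_mul, map_inv]
    have e3 : ι (γ (g * e s)) = g * e s * (o (Quotient.mk r (g * e s)))⁻¹ :=
      eq_mul_inv_of_mul_eq e2.symm
    have e4 : ι (γ g) = g * (o (Quotient.mk r g))⁻¹ := eq_mul_inv_of_mul_eq e1.symm
    rw [e3, e4]
    group

end Helper87.QD
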